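import Pool.Agent.Lib_MP_5027f4_min.Main

/-!
# Strict local minimizers of the action are not Lyapunov stable

For all positive masses, a relative periodic solution of the planar three-body problem (with any
spatial symmetry: choreographies, retrograde orbits, ...) which is an isolated local minimizer of
the Lagrangian action in its symmetry class is not Lyapunov stable in the center-of-mass frame,
unless it is a relative equilibrium.
-/

open Set
open scoped ComplexConjugate
open Pool.Agent.MP_5027f4_mp Pool.Agent.MP_5027f4_min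

namespace Pool.Agent.Results.MP_5027f4_mp.ActionMinimizers

theorem result (m : Fin 3 → ℝ) (hm : ∀ a, 0 < m a) (σ : Equiv.Perm (Fin 3))
    (hσ : ∀ a, m (σ a) = m a) (τ : ℝ) (hτ : 0 < τ) (u : ℂ) (hu : ‖u‖ = 1)
    (x : ℝ → (Fin 3 → ℂ) × (Fin 3 → ℂ)) (hx : IsSolution m univ x)
    (hper : ∀ t a, (x (t + τ)).1 a = u * (x t).1 (σ a))
    (hmin : StrictMin m τ u σ x ∨ ∃ (ω : ℂ) (ϖ : Equiv.Perm (Fin 3)), ‖ω‖ = 1 ∧
      (∀ a, m (ϖ a) = m a) ∧
      (∀ t ∈ Icc 0 τ, ∀ a, (x (τ - t)).1 a = ω * conj ((x t).1 (ϖ a))) ∧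
      StrictRevMin m τ u σ ω ϖ x)
    (hnc : ∃ a b t, ‖(x t).1 a - (x t).1 b‖ ≠ ‖(x 0).1 a - (x 0).1 b‖) :
    ¬ LyapunovStable m (range x) := by
  intro hst
  obtain ⟨a, b, t, hab⟩ := hnc
  exact hab (main hm σ hσ hτ hu hx hper hmin hst a b t)

end Pool.Agent.Results.MP_5027f4_mp.ActionMinimizers
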