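import Pool.Agent.Lib_MP_5027f4_ell.Main

/-!
# Elliptic Lagrange orbits are not Lyapunov stable

For all positive masses, the equilateral homographic solutions of the planar three-body problem
with eccentricity `e` in `(0, 1)`, outside a set of exceptional eccentricities which is finite in
every interval `[0, 1 - δ]`, have orbits which are not Lyapunov stable in the center-of-mass frame.
-/

open Set
open Pool.Agent.MP_5027f4_mp

namespace Pool.Agent.Results.MP_5027f4_mp.EllipticLagrange

theorem result (m : Fin 3 → ℝ) (hm : ∀ a, 0 < m a) :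
    ∃ D : Set ℝ, (∀ δ > 0, (D ∩ Icc 0 (1 - δ)).Finite) ∧
      ∀ x : ℝ → (Fin 3 → ℂ) × (Fin 3 → ℂ), IsSolution m univ x →
        (∀ t, ‖(x t).1 0 - (x t).1 1‖ = ‖(x t).1 1 - (x t).1 2‖ ∧
          ‖(x t).1 1 - (x t).1 2‖ = ‖(x t).1 2 - (x t).1 0‖) →
        ∀ l1 l2 : ℝ, IsLeast (range fun t => ‖(x t).1 0 - (x t).1 1‖) l1 →
          IsGreatest (range fun t => ‖(x t).1 0 - (x t).1 1‖) l2 → l1 < l2 →
          (l2 - l1) / (l2 + l1) ∉ D → ¬ LyapunovStable m (range x) :=
  Pool.Agent.MP_5027f4_ell.Mn.main m hm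

end Pool.Agent.Results.MP_5027f4_mp.EllipticLagrange
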