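import Pool.Agent.Lib_MP_5027f4_mp.Nondeg

/-!
# Nondegenerate relative periodic orbits of the planar three-body problem are not stable
-/

open Set

namespace Pool.Agent.Results.MP_5027f4_mp.NondegenerateUnstable

open Pool.Agent.MP_5027f4_mp

/-- For all positive masses: a nondegenerate relative periodic orbit of the planar three-body
problem which is not a relative equilibrium is never Lyapunov stable in the center-of-mass
frame. -/
theorem result (m : Fin 3 → ℝ) (hm : ∀ a, 0 < m a) (x : ℝ → (Fin 3 → ℂ) × (Fin 3 → ℂ))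
    (hx : IsSolution m univ x) (T : ℝ) (hT : 0 < T) (u : ℂ) (hu : ‖u‖ = 1)
    (hxu : ∀ t, x (t + T) = u • x t)
    (hnc : ∃ a b t, ‖(x t).1 a - (x t).1 b‖ ≠ ‖(x 0).1 a - (x 0).1 b‖)
    (hnd : Nondegenerate m x T u) : ¬ LyapunovStable m (range x) := by
  obtain ⟨a, b, t, hab⟩ := hnc
  refine not_stable_of_nondegenerate hm hx hT hu hxu (fun h => hab (h a b t)) ?_
  intro J hJ hJT
  exact hnd J (fun t ht => ⟨(hJ t ht).1.1, (hJ t ht).1.2, (hJ t ht).2⟩) hJT

end Pool.Agent.Results.MP_5027f4_mp.NondegenerateUnstable
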