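import Pool.Agent.Lib_MP_5027f4_cont.WFin

/-!
# Near a Lyapunov stable relative periodic orbit of the planar three-body problem no relative
# periodic orbit is strongly stable
-/

open Set Polynomial
open scoped ComplexConjugate

namespace Pool.Agent.Results.MP_5027f4_mp.StrongStability

open Pool.Agent.MP_5027f4_mp

/-- a motion of the three bodies: positions and velocities -/
abbrev Motion := ℝ → (Fin 3 → ℂ) × (Fin 3 → ℂ)

/-- real linear maps of the phase space -/
abbrev Lin := ((Fin 3 → ℂ) × (Fin 3 → ℂ)) →ₗ[ℝ] ((Fin 3 → ℂ) × (Fin 3 → ℂ))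

/-- the mutual distance of the bodies `a` and `b` -/
noncomputable def dst (x : Motion) (a b : Fin 3) (t : ℝ) : ℝ := ‖(x t).1 a - (x t).1 b‖

/-- `x` is relative periodic (every mutual distance is periodic), or its mutual distances are
bounded and bounded away from zero -/
def Tame (x : Motion) : Prop :=
  (∀ a b, ∃ T > 0, ∀ t, dst x a b (t + T) = dst x a b t) ∨
    ∃ r > 0, ∃ R : ℝ, (∀ t a b, a ≠ b → r ≤ dst x a b t) ∧ ∀ t a b, dst x a b t ≤ R

/-- all mutual distances are constant -/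
def Rigid (x : Motion) : Prop := ∀ a b t, dst x a b t = dst x a b 0

/-- `x` is periodic up to the rotation `u` -/
def Twisted (x : Motion) (T : ℝ) (u : ℂ) : Prop := 0 < T ∧ ‖u‖ = 1 ∧ ∀ t, x (t + T) = u • x t

/-- `M` is the monodromy of the motion `x` with `x (t + T) = u x(t)`: every solution `J` on `[0, T]`
of the variational equation along `x` in the center-of-mass space (real dimension `8`) satisfies
`J(T) = u M (J(0))`; on the translations `M` is extended by zero. -/
def IsMonodromy (m : Fin 3 → ℝ) (x : Motion) (T : ℝ) (u : ℂ) (M : Lin) : Prop :=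
  (∀ J : Motion, IsJacobi m x T J → J T = u • M (J 0)) ∧
    ∀ w : ℂ × ℂ, M (fun _ => w.1, fun _ => w.2) = 0

/-- `M` is the monodromy of `x`, it has (on the center-of-mass space, with multiplicities) the
eigenvalues `1, 1, 1, 1, l₁, 1/l₁, l₂, 1/l₂`, and `l₁`, `l₂` are on the unit circle; the factor `X ^ 4`
belongs to the extension by zero. -/
def Elliptic (m : Fin 3 → ℝ) (x : Motion) (T : ℝ) (u : ℂ) (M : Lin) (l₁ l₂ : ℂ) : Prop :=
  ‖l₁‖ = 1 ∧ ‖l₂‖ = 1 ∧ IsMonodromy m x T u M ∧ M.charpoly.map (algebraMap ℝ ℂ) =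
    X ^ 4 * ((X - 1) ^ 4 * ((X - C l₁) * (X - C l₁⁻¹) * ((X - C l₂) * (X - C l₂⁻¹))))

/-- the symplectic form of the phase space, in positions and velocities -/
noncomputable def symp (m : Fin 3 → ℝ) (v w : (Fin 3 → ℂ) × (Fin 3 → ℂ)) : ℝ :=
  ∑ a, m a * (conj (v.1 a) * w.2 a - conj (v.2 a) * w.1 a).re

/-- `M² v - 2 Re(l) M v + v` -/
noncomputable def quad (M : Lin) (l : ℂ) (v : (Fin 3 → ℂ) × (Fin 3 → ℂ)) :
    (Fin 3 → ℂ) × (Fin 3 → ℂ) := M (M v) - (2 * l.re) • M v + v

/-- The Krein form `v ↦ symp v (M v)` is (positive or negative) definite on the kernel of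
`(M² - 2 Re(l) M + 1)²`, that is on the real generalized eigenspace of `l` and `1/l`. -/
def KreinDefinite (m : Fin 3 → ℝ) (M : Lin) (l : ℂ) : Prop :=
  (∀ v, v ≠ 0 → quad M l (quad M l v) = 0 → 0 < symp m v (M v)) ∨
    (∀ v, v ≠ 0 → quad M l (quad M l v) = 0 → symp m v (M v) < 0)

/-- For all positive masses: if the orbit of a relative periodic solution of the planar three-body
problem (or of a solution with mutual distances bounded and bounded away from zero) is Lyapunov
stable in the center-of-mass frame, then either all mutual distances are constant, or it is periodic,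
its multipliers lie on the unit circle, and near it (in particular on it) every relative periodic
orbit with multipliers on the unit circle has a multiplier `±1` or a double multiplier `l`, and in
the latter case the Krein form is not definite, unless the rotation `u` is not `1` and is `l` or
`1/l`.  In particular no periodic orbit near it is strongly stable. -/
theorem result (m : Fin 3 → ℝ) (hm : ∀ a, 0 < m a) (x : Motion) (hx : IsSolution m univ x)
    (hrel : Tame x) (hst : LyapunovStable m (range x)) :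
    Rigid x ∨ (∃ P, Twisted x P 1) ∧
      (∀ T u, Twisted x T u → ∃ M l₁ l₂, Elliptic m x T u M l₁ l₂) ∧
      ∃ U, IsOpen U ∧ range x ⊆ U ∧ ∀ y, IsSolution m univ y → y 0 ∈ U → ∀ T u, Twisted y T u →
        ∀ M l₁ l₂, Elliptic m y T u M l₁ l₂ → l₁ ^ 2 = 1 ∨ l₂ ^ 2 = 1 ∨
          (l₁ = l₂ ∨ l₁ * l₂ = 1) ∧ (KreinDefinite m M l₁ → u ≠ 1 ∧ (l₁ = u ∨ l₁ * u = 1)) := by
  obtain ⟨r, hr, R, hxr, hxR⟩ : ∃ r > 0, ∃ R : ℝ,
      (∀ t a b, a ≠ b → r ≤ ‖(x t).1 a - (x t).1 b‖) ∧
        ∀ t a b, ‖(x t).1 a - (x t).1 b‖ ≤ R := by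
    rcases hrel with h | h
    · exact bounds_of_periodic hx h
    · exact h
  obtain ⟨P, hP, hper⟩ := periodic_of_lyapunovStable hm hx hr hxr hxR hst
  by_cases hnc : ∀ a b t, ‖(x t).1 a - (x t).1 b‖ = ‖(x 0).1 a - (x 0).1 b‖
  · exact Or.inl hnc
  · right
    obtain ⟨h1, U, hU, hxU, h2⟩ := Pool.Agent.MP_5027f4_cont.main4 hm hx hP hper hst hnc
    obtain ⟨U', hU', hxU', h3⟩ := Pool.Agent.MP_5027f4_cont.main5 hm hx hP hper hst hnc
    refine ⟨⟨P, hP, by simp, fun t => by rw [hper, one_smul]⟩, fun T u hxu => ?_, U ∩ U',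
      hU.inter hU', subset_inter hxU hxU', fun y hy hy0 T u hyu M l₁ l₂ hE => ?_⟩
    · obtain ⟨M, hM, l₁, l₂, hl₁, hl₂, hMl, -⟩ := h1 T hxu.1 u hxu.2.1 hxu.2.2
      obtain ⟨M', hM', hMl'⟩ := (Pool.Agent.MP_5027f4_cont.monF_iff hm hxu.1
        (Solves.mono hx (subset_univ _)) hxu.2.1 _).2 ⟨M, hM, hMl⟩
      exact ⟨M', l₁, l₂, hl₁, hl₂, hM', hMl'⟩
    · obtain ⟨hl₁, hl₂, hMy, hcp⟩ := hE
      obtain ⟨M', hM', hMl, hMM⟩ := Pool.Agent.MP_5027f4_cont.monF_restrict hm hyu.1
        (Solves.mono hy (subset_univ _)) hyu.2.1 hMy hcp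
      have hnr := h2 y hy hy0.1 T hyu.1 u hyu.2.1 hyu.2.2 M' hM' l₁ l₂ hl₁ hl₂ hMl
      by_cases e1 : l₁ ^ 2 = 1
      · exact Or.inl e1
      by_cases e2 : l₂ ^ 2 = 1
      · exact Or.inr (Or.inl e2)
      have e3 : l₁ = l₂ ∨ l₁ * l₂ = 1 := by
        by_contra h
        push Not at h
        exact hnr ⟨e1, e2, h.1, h.2⟩
      refine Or.inr (Or.inr ⟨e3, fun hK => ?_⟩)
      by_contra hu
      have hu' : u = 1 ∨ (l₁ ≠ u ∧ l₁ * u ≠ 1) := by
        by_cases h : u = 1
        · exact Or.inl h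
        · refine Or.inr ⟨fun h' => hu ⟨h, Or.inl h'⟩, fun h' => hu ⟨h, Or.inr h'⟩⟩
      exact h3 y hy hy0.2 T hyu.1 u hyu.2.1 hyu.2.2 M' hM' l₁ l₂ hl₁ e1 e3 hMl hu'
        (Pool.Agent.MP_5027f4_cont.krM_of hMM hK)

end Pool.Agent.Results.MP_5027f4_mp.StrongStability
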